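import Mathlib

set_option autoImplicit false

/-!
Baire category in Cantor space: exchanging initial segments, sections of comeager sets.
-/

namespace Pool.Agent.V11258.UR

open Set Filter Topology

/-- Cantor space -/
abbrev Cz := ℕ → Bool

/-- agreement below `N` -/
def Agr (N : ℕ) (z w : Cz) : Prop := ∀ j < N, z j = w j

theorem Agr.symm {N : ℕ} {z w : Cz} (h : Agr N z w) : Agr N w z := fun j hj => (h j hj).symm

theorem Agr.trans {N : ℕ} {z w v : Cz} (h : Agr N z w) (h' : Agr N w v) : Agr N z v :=
  fun j hj => (h j hj).trans (h' j hj)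

theorem isOpen_agr (N : ℕ) (w : Cz) : IsOpen {z | Agr N z w} := by
  have : {z | Agr N z w} = ⋂ j ∈ Finset.range N, (fun z : Cz => z j) ⁻¹' {w j} := by
    ext z
    simp [Agr]
  rw [this]
  exact isOpen_biInter_finset fun j _ => (isOpen_discrete _).preimage (continuous_apply j)

/-- basic neighbourhoods -/
theorem exists_agr {U : Set Cz} (hU : IsOpen U) {z : Cz} (hz : z ∈ U) :
    ∃ N, ∀ w, Agr N w z → w ∈ U := by
  obtain ⟨I, u, hI, hu⟩ := isOpen_pi_iff.1 hU z hz
  refine ⟨I.sup id + 1, fun w hw => hu fun j hj => ?_⟩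
  have h1 : j < I.sup id + 1 := Nat.lt_succ_of_le (Finset.le_sup (f := id) hj)
  rw [hw j h1]
  exact (hI j hj).2

theorem continuous_of_agr {Y : Type*} [TopologicalSpace Y] {f : Cz → Y} (N : ℕ)
    (h : ∀ z w, Agr N z w → f z = f w) : Continuous f := by
  refine continuous_iff_continuousAt.2 fun z => ?_
  have h1 : ∀ᶠ w in 𝓝 z, f w = f z := by
    filter_upwards [(isOpen_agr N z).mem_nhds (fun j _ => rfl)] with w hw
    exact h w z hw
  exact (continuousAt_const (y := f z)).congr (h1.mono fun w hw => hw.symm)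

open Classical in
/-- exchange the initial segments of length `N` of `w` and `a` -/
noncomputable def swz (N : ℕ) (w a : Cz) (z : Cz) : Cz := fun i =>
  if i < N then if Agr N z w then a i else if Agr N z a then w i else z i else z i

theorem swz_ge {N : ℕ} {w a z : Cz} {i : ℕ} (h : N ≤ i) : swz N w a z i = z i := by
  simp [swz, not_lt.2 h]

theorem swz_left {N : ℕ} {w a z : Cz} (h : Agr N z w) : Agr N (swz N w a z) a := by
  intro j hj
  simp [swz, hj, h]

theorem swz_right {N : ℕ} {w a z : Cz} (h : Agr N z a) : Agr N (swz N w a z) w := by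
  intro j hj
  simp only [swz, hj, if_true]
  split_ifs with h1
  · rw [← h j hj, h1 j hj]
  · rfl

theorem swz_none {N : ℕ} {w a z : Cz} (h : ¬ Agr N z w) (h' : ¬ Agr N z a) :
    swz N w a z = z := by
  funext j
  simp [swz, h, h']

theorem eq_of_agr {N : ℕ} {x y : Cz} (h : Agr N x y) (h' : ∀ i, N ≤ i → x i = y i) : x = y := by
  funext i
  by_cases hi : i < N
  · exact h i hi
  · exact h' i (by omega)

theorem swz_swz (N : ℕ) (w a z : Cz) : swz N w a (swz N w a z) = z := by
  by_cases h : Agr N z w
  · refine eq_of_agr ((swz_right (swz_left h)).trans h.symm) fun i hi => ?_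
    rw [swz_ge hi, swz_ge hi]
  · by_cases h' : Agr N z a
    · refine eq_of_agr ((swz_left (swz_right h')).trans h'.symm) fun i hi => ?_
      rw [swz_ge hi, swz_ge hi]
    · rw [swz_none h h', swz_none h h']

theorem swz_congr {N : ℕ} {w w' a a' : Cz} (h : Agr N w w') (h' : Agr N a a') :
    swz N w a = swz N w' a' := by
  funext z i
  have e1 : Agr N z w ↔ Agr N z w' := ⟨fun g => g.trans h, fun g => g.trans h.symm⟩
  have e2 : Agr N z a ↔ Agr N z a' := ⟨fun g => g.trans h', fun g => g.trans h'.symm⟩
  by_cases h1 : i < N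
  · by_cases h2 : Agr N z w'
    · simp only [swz, if_pos h1, if_pos h2, if_pos (e1.2 h2)]
      exact h' i h1
    · by_cases h3 : Agr N z a'
      · simp only [swz, if_pos h1, if_neg h2, if_neg (fun g => h2 (e1.1 g)), if_pos h3,
          if_pos (e2.2 h3)]
        exact h i h1
      · rw [swz_none (fun g => h2 (e1.1 g)) (fun g => h3 (e2.1 g)), swz_none h2 h3]
  · rw [swz_ge (by omega), swz_ge (by omega)]

theorem continuous_swz (N : ℕ) (w a : Cz) : Continuous (swz N w a) := by
  refine continuous_pi fun i => continuous_of_agr (max N (i + 1)) fun z z' h => ?_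
  have hN : Agr N z z' := fun j hj => h j (by omega)
  have e1 : Agr N z w ↔ Agr N z' w := ⟨fun g => hN.symm.trans g, fun g => hN.trans g⟩
  have e2 : Agr N z a ↔ Agr N z' a := ⟨fun g => hN.symm.trans g, fun g => hN.trans g⟩
  have e3 : z i = z' i := h i (by omega)
  by_cases h1 : Agr N z' w
  · simp only [swz, if_pos h1, if_pos (e1.2 h1), e3]
  · by_cases h2 : Agr N z' a
    · simp only [swz, if_neg h1, if_neg (fun g => h1 (e1.1 g)), if_pos h2, if_pos (e2.2 h2), e3]
    · rw [swz_none h1 h2, swz_none (fun g => h1 (e1.1 g)) (fun g => h2 (e2.1 g)), e3]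

/-- as a homeomorphism -/
noncomputable def swzH (N : ℕ) (w a : Cz) : Cz ≃ₜ Cz where
  toFun := swz N w a
  invFun := swz N w a
  left_inv := swz_swz N w a
  right_inv := swz_swz N w a
  continuous_toFun := continuous_swz N w a
  continuous_invFun := continuous_swz N w a

theorem preimage_swz {N : ℕ} {w a : Cz} {E : Set Cz} (h : E ∈ residual Cz) :
    swz N w a ⁻¹' E ∈ residual Cz :=
  tendsto_residual_of_isOpenMap (continuous_swz N w a) (swzH N w a).isOpenMap h

/-- extension of a finite string by `false` -/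
def ex {N : ℕ} (w : Fin N → Bool) : Cz := fun i => if h : i < N then w ⟨i, h⟩ else false

theorem agr_ex (N : ℕ) (z : Cz) : Agr N z (ex fun j : Fin N => z j) := by
  intro j hj
  simp [ex, hj]

/-- all images under two exchanges of almost every point are in a given comeager set -/
theorem two_swaps {E : Set Cz} (h : E ∈ residual Cz) :
    {z | ∀ N w a w' a', swz N w a (swz N w' a' z) ∈ E} ∈ residual Cz := by
  have h1 : ∀ p : (Σ N : ℕ, (Fin N → Bool) × (Fin N → Bool) × (Fin N → Bool) × (Fin N → Bool)),
      swz p.1 (ex p.2.2.2.1) (ex p.2.2.2.2) ⁻¹' (swz p.1 (ex p.2.1) (ex p.2.2.1) ⁻¹' E)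
        ∈ residual Cz := fun p => preimage_swz (preimage_swz h)
  have h2 := countable_iInter_mem.2 h1
  refine mem_of_superset h2 fun z hz N w a w' a' => ?_
  have h3 := mem_iInter.1 hz ⟨N, fun j => w j, fun j => a j, fun j => w' j, fun j => a' j⟩
  rw [swz_congr (agr_ex N w) (agr_ex N a), swz_congr (agr_ex N w') (agr_ex N a')]
  exact h3

/-- the point with even part `a` and odd part `b` -/
def jn (a b : Cz) : Cz := fun n => if n % 2 = 0 then a (n / 2) else b (n / 2)

theorem jn_even (a b : Cz) (n : ℕ) : jn a b (2 * n) = a n := by simp [jn]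

theorem jn_odd (a b : Cz) (n : ℕ) : jn a b (2 * n + 1) = b n := by
  have h1 : (2 * n + 1) % 2 = 1 := by omega
  have h2 : (2 * n + 1) / 2 = n := by omega
  simp [jn, h1, h2]

theorem jn_eta (z : Cz) : jn (fun n => z (2 * n)) (fun n => z (2 * n + 1)) = z := by
  funext n
  simp only [jn]
  split_ifs with h
  · congr 1; omega
  · congr 1; omega

theorem continuous_jn : Continuous fun p : Cz × Cz => jn p.1 p.2 := by
  refine continuous_pi fun n => ?_
  simp only [jn]
  split_ifs
  · exact (continuous_apply _).comp continuous_fst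
  · exact (continuous_apply _).comp continuous_snd

theorem agr_jn {N : ℕ} {a a' b b' : Cz} (h : Agr N a a') (h' : Agr N b b') :
    Agr N (jn a b) (jn a' b') := by
  intro j hj
  simp only [jn]
  split_ifs
  · exact h _ (by omega)
  · exact h' _ (by omega)

theorem dense_iff_agr {U : Set Cz} : Dense U ↔ ∀ (N : ℕ) (w : Cz), ∃ z ∈ U, Agr N z w := by
  constructor
  · intro h N w
    obtain ⟨z, hz1, hz2⟩ := h.inter_open_nonempty _ (isOpen_agr N w) ⟨w, fun _ _ => rfl⟩
    exact ⟨z, hz2, hz1⟩
  · intro h
    refine dense_iff_inter_open.2 fun V hV ⟨w, hw⟩ => ?_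
    obtain ⟨N, hN⟩ := exists_agr hV hw
    obtain ⟨z, hz, hz'⟩ := h N w
    exact ⟨z, hN z hz', hz⟩

theorem mem_residual_of {U : Set Cz} (h1 : IsOpen U) (h2 : Dense U) : U ∈ residual Cz :=
  residual_of_dense_open h1 h2

/-- sections of comeager sets -/
theorem exists_section {G : Set Cz} (hG : G ∈ residual Cz) :
    ∃ a, {b | jn a b ∈ G} ∈ residual Cz := by
  obtain ⟨S, hS1, hS2, hS3, hS4⟩ := mem_residual_iff.1 hG
  have key : ∀ U ∈ S, {a | ∀ p : (Σ N : ℕ, Fin N → Bool), ∃ b, Agr p.1 b (ex p.2) ∧ jn a b ∈ U}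
      ∈ residual Cz := by
    intro U hU
    have h1 : ∀ p : (Σ N : ℕ, Fin N → Bool),
        {a | ∃ b, Agr p.1 b (ex p.2) ∧ jn a b ∈ U} ∈ residual Cz := by
      intro p
      refine mem_residual_of ?_ ?_
      · have : {a | ∃ b, Agr p.1 b (ex p.2) ∧ jn a b ∈ U} =
            ⋃ b ∈ {b | Agr p.1 b (ex p.2)}, {a | jn a b ∈ U} := by
          ext a
          simp
        rw [this]
        refine isOpen_biUnion fun b _ => (hS1 U hU).preimage ?_
        exact continuous_jn.comp (Continuous.prodMk continuous_id continuous_const)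
      · refine dense_iff_agr.2 fun N w => ?_
        obtain ⟨z, hz1, hz2⟩ := dense_iff_agr.1 (hS2 U hU) (2 * (max N p.1) + 1) (jn w (ex p.2))
        refine ⟨fun n => z (2 * n), ⟨fun n => z (2 * n + 1), fun j hj => ?_, ?_⟩, fun j hj => ?_⟩
        · have := hz2 (2 * j + 1) (by omega)
          rw [jn_odd] at this
          exact this
        · rw [jn_eta]
          exact hz1
        · have := hz2 (2 * j) (by omega)
          rw [jn_even] at this
          exact this
    refine mem_of_superset (countable_iInter_mem.2 h1) fun a ha p => ?_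
    exact mem_iInter.1 ha p
  have h2 : (⋂ U ∈ S, {a | ∀ p : (Σ N : ℕ, Fin N → Bool), ∃ b, Agr p.1 b (ex p.2) ∧ jn a b ∈ U})
      ∈ residual Cz := (countable_bInter_mem hS3).2 key
  obtain ⟨a, ha⟩ := (dense_of_mem_residual h2).nonempty
  refine ⟨a, mem_residual_iff.2 ⟨(fun U => {b | jn a b ∈ U}) '' S, ?_, ?_, hS3.image _, ?_⟩⟩
  · rintro _ ⟨U, hU, rfl⟩
    exact (hS1 U hU).preimage (continuous_jn.comp (Continuous.prodMk continuous_const continuous_id))
  · rintro _ ⟨U, hU, rfl⟩
    refine dense_iff_agr.2 fun N w => ?_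
    obtain ⟨b, hb1, hb2⟩ := (mem_iInter₂.1 ha U hU) ⟨N, fun j => w j⟩
    exact ⟨b, hb2, hb1.trans (agr_ex N w).symm⟩
  · intro b hb
    refine hS4 fun U hU => ?_
    exact hb {b | jn a b ∈ U} ⟨U, hU, rfl⟩

theorem residual_compl_singleton (b : Cz) : ({b}ᶜ : Set Cz) ∈ residual Cz := by
  refine mem_residual_of isOpen_compl_singleton (dense_iff_agr.2 fun N w => ?_)
  by_cases h : (fun i => if i = N then !(b N) else w i) = b
  · exfalso
    have := congrFun h N
    simp at this
  · exact ⟨_, h, fun j hj => by simp [show j ≠ N by omega]⟩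

/-- a countable set is not comeager -/
theorem not_countable {B : Set Cz} (hB : B ∈ residual Cz) : ¬ B.Countable := by
  intro hc
  have h1 : (⋂ b ∈ B, ({b}ᶜ : Set Cz)) ∈ residual Cz :=
    (countable_bInter_mem hc).2 fun b _ => residual_compl_singleton b
  obtain ⟨b, hb1, hb2⟩ := (dense_of_mem_residual (inter_mem hB h1)).nonempty
  exact (mem_iInter₂.1 hb2 b hb1) rfl

/-- nonmeager sets with the property of Baire are comeager in some basic open set -/
theorem exists_cyl {A : Set Cz} (hA : BaireMeasurableSet A) (h : ¬ IsMeagre A) :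
    ∃ N w, {z | Agr N z w → z ∈ A} ∈ residual Cz := by
  obtain ⟨u, hu, hAu⟩ := hA.residualEq_isOpen
  have hne : u.Nonempty := by
    by_contra hc
    rw [not_nonempty_iff_eq_empty] at hc
    subst hc
    apply h
    have h1 : {z | z ∈ A ↔ z ∈ (∅ : Set Cz)} ∈ residual Cz := by
      filter_upwards [hAu] with z hz
      exact Iff.of_eq hz
    refine mem_of_superset h1 fun z hz => ?_
    simpa using hz
  obtain ⟨w, hw⟩ := hne
  obtain ⟨N, hN⟩ := exists_agr hu hw
  refine ⟨N, w, ?_⟩
  filter_upwards [hAu] with z hz hzw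
  exact (Iff.of_eq hz).2 (hN z hzw)

/-- A map on Cantor space with the property of Baire whose value at the image of a point under
each exchange of two initial segments is a function of its value at the point is either
constant or injective on a comeager set. -/
theorem const_or_inj {Y : Type*} {H : Cz → ℕ → Y} [Countable Y]
    (hH : ∀ n m, BaireMeasurableSet {z | H z n = m})
    (hU : ∀ N w a, ∃ g : (ℕ → Y) → (ℕ → Y), ∀ z, H (swz N w a z) = g (H z)) :
    (∃ C, {z | H z = C} ∈ residual Cz) ∨ ∃ G ∈ residual Cz, InjOn H G := by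
  by_cases hc : ∀ n m, IsMeagre {z | H z n = m} ∨ IsMeagre {z | H z n ≠ m}
  · left
    have h1 : ∀ n, ∃ m, IsMeagre {z | H z n ≠ m} := by
      intro n
      by_contra h
      push Not at h
      have h2 : ∀ m, IsMeagre {z | H z n = m} := fun m => (hc n m).resolve_right (h m)
      have h3 : IsMeagre (⋃ m, {z | H z n = m}) := isMeagre_iUnion h2
      have h4 : (⋃ m, {z | H z n = m}) = univ := by
        ext z; simp
      rw [h4] at h3
      exact not_isMeagre_of_isOpen (X := Cz) isOpen_univ ⟨fun _ => false, trivial⟩ h3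
    choose C hC using h1
    refine ⟨C, ?_⟩
    have h5 : (⋂ n, {z | H z n ≠ C n}ᶜ) ∈ residual Cz := countable_iInter_mem.2 fun n => hC n
    refine mem_of_superset h5 fun z hz => ?_
    funext n
    have := mem_iInter.1 hz n
    simpa using this
  · right
    push Not at hc
    obtain ⟨n, m, h1, h0⟩ := hc
    obtain ⟨N1, w1, hE1⟩ := exists_cyl (hH n m) h1
    have hb0 : BaireMeasurableSet {z | H z n ≠ m} := (hH n m).compl
    obtain ⟨N0, w0, hE0⟩ := exists_cyl hb0 h0
    refine ⟨_, two_swaps (inter_mem hE1 hE0), ?_⟩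
    intro z hz z' hz' hzz
    by_contra hne
    obtain ⟨j, hj⟩ : ∃ j, z j ≠ z' j := by
      by_contra h
      push Not at h
      exact hne (funext h)
    obtain ⟨N, hN⟩ : ∃ N, N = max (j + 1) (max N1 N0 + 1) := ⟨_, rfl⟩
    set a1 : Cz := fun i => if i < N1 then w1 i else true with ha1
    set a0 : Cz := fun i => if i < N0 then w0 i else false with ha0
    have hdiff : ¬ Agr N a1 a0 := by
      intro h
      have := h (max N1 N0) (by omega)
      simp [ha1, ha0] at this
    have hnz : ¬ Agr N z' z := fun h => hj (h j (by omega)).symm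
    -- the first exchange
    have hS1 : Agr N (swz N z a1 z) a1 := swz_left fun _ _ => rfl
    have hS1' : ¬ Agr N (swz N z a1 z') a1 := by
      intro h
      by_cases h2 : Agr N z' a1
      · have h3 : Agr N (swz N z a1 z') z := swz_right h2
        exact hnz (h2.trans (h.symm.trans h3))
      · rw [swz_none hnz h2] at h
        exact h2 h
    -- the second exchange
    have hS2 : swz N (swz N z a1 z') a0 (swz N z a1 z) = swz N z a1 z :=
      swz_none (fun h => hS1' (h.symm.trans hS1)) (fun h => hdiff (hS1.symm.trans h))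
    have hS2' : Agr N (swz N (swz N z a1 z') a0 (swz N z a1 z')) a0 := swz_left fun _ _ => rfl
    obtain ⟨g1, hg1⟩ := hU N z a1
    obtain ⟨g2, hg2⟩ := hU N (swz N z a1 z') a0
    have e1 : H (swz N (swz N z a1 z') a0 (swz N z a1 z)) =
        H (swz N (swz N z a1 z') a0 (swz N z a1 z')) := by
      rw [hg2, hg2, hg1, hg1, hzz]
    have e2 : H (swz N (swz N z a1 z') a0 (swz N z a1 z)) n = m := by
      refine (hz N _ a0 z a1).1 ?_
      rw [hS2]
      intro i hi
      rw [hS1 i (by omega)]
      simp [ha1, hi]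
    have e3 : H (swz N (swz N z a1 z') a0 (swz N z a1 z')) n ≠ m := by
      refine (hz' N _ a0 z a1).2 ?_
      intro i hi
      rw [hS2' i (by omega)]
      simp [ha0, hi]
    exact e3 (e1 ▸ e2)

end Pool.Agent.V11258.UR
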