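import Pool.Agent.V11258.UR.Tree
import Pool.Agent.V11258.UR.Cat

set_option autoImplicit false

/-!
The Borel Turing invariant function.
-/

namespace Pool.Agent.V11258.UR

open Encodable Nat.Partrec Set

/-- reals -/
abbrev Re := ℕ → ℕ

theorem measurableSet_pre (k : ℕ) : ∀ P : List ℕ → Prop, MeasurableSet {x : Re | P (pre x k)} := by
  induction k with
  | zero => intro P; simp [pre]
  | succ k ih =>
    intro P
    have : {x : Re | P (pre x (k + 1))} =
        ⋃ m : ℕ, {x : Re | x k = m} ∩ {x | P (pre x k ++ [m])} := by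
      ext x
      simp [pre_succ]
    rw [this]
    refine MeasurableSet.iUnion fun m => MeasurableSet.inter ?_ (ih fun σ => P (σ ++ [m]))
    exact (measurable_pi_apply (X := fun _ : ℕ => ℕ) k) (measurableSet_singleton m)

theorem measurableSet_red (c : Code) : MeasurableSet {p : Re × Re | Red c p.1 p.2} := by
  have h1 : ∀ n k v : ℕ, MeasurableSet {p : Re × Re | v ∈ c.eval (encode (n, pre p.1 k))} := by
    intro n k v
    exact measurable_fst (measurableSet_pre k fun σ => v ∈ c.eval (encode (n, σ)))
  have h2 : ∀ n v : ℕ, MeasurableSet {p : Re × Re | p.2 n = v} := by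
    intro n v
    exact ((measurable_pi_apply (X := fun _ : ℕ => ℕ) n).comp measurable_snd)
      (measurableSet_singleton v)
  have e : {p : Re × Re | Red c p.1 p.2} =
      (⋂ n, ⋃ k, ⋃ v, {p : Re × Re | v ∈ c.eval (encode (n, pre p.1 k))} ∩ {p | p.2 n = v}) ∩
      ⋂ n, ⋂ k, ⋂ v, {p : Re × Re | v ∈ c.eval (encode (n, pre p.1 k))}ᶜ ∪ {p | p.2 n = v} := by
    ext p
    simp only [Red, mem_ofPred_eq, mem_inter_iff, mem_iInter, mem_iUnion, mem_union, mem_compl_iff]
    refine and_congr (forall_congr' fun n => exists_congr fun k => ?_)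
      (forall_congr' fun n => forall_congr' fun k => forall_congr' fun v => ?_)
    · constructor
      · intro h
        exact ⟨_, h, rfl⟩
      · rintro ⟨v, h, rfl⟩
        exact h
    · constructor
      · intro h
        by_cases h' : v ∈ c.eval (encode (n, pre p.1 k))
        · exact Or.inr (h h').symm
        · exact Or.inl h'
      · intro h h'
        rcases h with h | h
        · exact absurd h' h
        · exact h.symm
  rw [e]
  refine MeasurableSet.inter ?_ ?_
  · exact MeasurableSet.iInter fun n => MeasurableSet.iUnion fun k => MeasurableSet.iUnion fun v =>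
      (h1 n k v).inter (h2 n v)
  · exact MeasurableSet.iInter fun n => MeasurableSet.iInter fun k => MeasurableSet.iInter fun v =>
      (h1 n k v).compl.union (h2 n v)

/-- a measurable choice of the result of the program `c` -/
noncomputable def G (c : Code) (x : Re) : Re :=
  fun n => sInf {v | ∃ k, v ∈ c.eval (encode (n, pre x k))}

theorem Red.G_eq {c : Code} {x y : Re} (h : Red c x y) : G c x = y := by
  funext n
  have : {v | ∃ k, v ∈ c.eval (encode (n, pre x k))} = {y n} := by
    ext v
    constructor
    · rintro ⟨k, hk⟩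
      exact h.2 n k v hk
    · rintro rfl
      exact h.1 n
  simp only [G]
  rw [this]
  exact csInf_singleton _

theorem measurable_nat {α : Type*} [MeasurableSpace α] {f : α → ℕ}
    (h : ∀ m, MeasurableSet {x | f x = m}) : Measurable f :=
  measurable_to_countable' fun m => h m

theorem measurable_G (c : Code) : Measurable (G c) := by
  refine measurable_pi_iff.2 fun n => measurable_nat fun m => ?_
  have h1 : ∀ v, MeasurableSet {x : Re | ∃ k, v ∈ c.eval (encode (n, pre x k))} := by
    intro v
    have : {x : Re | ∃ k, v ∈ c.eval (encode (n, pre x k))} =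
        ⋃ k, {x : Re | v ∈ c.eval (encode (n, pre x k))} := by ext x; simp
    rw [this]
    exact MeasurableSet.iUnion fun k => measurableSet_pre k fun σ => v ∈ c.eval (encode (n, σ))
  have e : {x : Re | G c x n = m} =
      ({x : Re | ∃ k, m ∈ c.eval (encode (n, pre x k))} ∩
        ⋂ u ∈ {u | u < m}, {x : Re | ∃ k, u ∈ c.eval (encode (n, pre x k))}ᶜ) ∪
      ({x : Re | m = 0} ∩ ⋂ u, {x : Re | ∃ k, u ∈ c.eval (encode (n, pre x k))}ᶜ) := by
    ext x
    simp only [G, mem_ofPred_eq, mem_union, mem_inter_iff, mem_iInter, mem_compl_iff]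
    constructor
    · intro h
      by_cases hne : {v | ∃ k, v ∈ c.eval (encode (n, pre x k))}.Nonempty
      · left
        refine ⟨?_, fun u hu hu' => ?_⟩
        · have := Nat.sInf_mem hne
          rw [h] at this
          exact this
        · have := Nat.sInf_le (s := {v | ∃ k, v ∈ c.eval (encode (n, pre x k))}) hu'
          omega
      · right
        rw [not_nonempty_iff_eq_empty] at hne
        refine ⟨?_, fun u hu => ?_⟩
        · rw [hne] at h
          simpa using h.symm
        · have : u ∈ {v | ∃ k, v ∈ c.eval (encode (n, pre x k))} := hu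
          rw [hne] at this
          exact this
    · rintro (⟨h1, h2⟩ | ⟨rfl, h2⟩)
      · refine le_antisymm (Nat.sInf_le h1) ?_
        by_contra hc
        push Not at hc
        exact h2 _ hc (Nat.sInf_mem (s := {v | ∃ k, v ∈ c.eval (encode (n, pre x k))}) ⟨m, h1⟩)
      · have : {v | ∃ k, v ∈ c.eval (encode (n, pre x k))} = ∅ := by
          ext v
          simpa using h2 v
        rw [this]
        simp
  rw [e]
  refine MeasurableSet.union ((h1 m).inter ?_) (MeasurableSet.inter (MeasurableSet.const _) ?_)
  · exact MeasurableSet.biInter (to_countable _) fun u _ => (h1 u).compl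
  · exact MeasurableSet.iInter fun u => (h1 u).compl

/-- the parameter read off from a member of the perfect set -/
noncomputable def dec (y : Re) : Cz := fun n => decide (y (ll n) = 1)

theorem dec_Q (z : Cz) : dec (Q z) = z := by
  funext n
  simp only [dec, Q_ll]
  cases z n <;> simp

/-- the even bits -/
def rho (z : Cz) : Re := fun n => (z (2 * n)).toNat

theorem measurable_dec : Measurable dec := by
  refine measurable_pi_iff.2 fun n => ?_
  exact (Measurable.of_discrete (f := fun m : ℕ => decide (m = 1))).comp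
    (measurable_pi_apply (X := fun _ => ℕ) (ll n))

theorem measurable_Q : Measurable Q := by
  refine measurable_pi_iff.2 fun i => ?_
  exact (Measurable.of_discrete (f := fun b : Bool => vv b i)).comp (measurable_pi_apply (bb i))

theorem measurable_rho : Measurable rho := by
  refine measurable_pi_iff.2 fun i => ?_
  exact (Measurable.of_discrete (f := Bool.toNat)).comp (measurable_pi_apply (2 * i))

/-- the pair of programs with number `n` -/
def cd (n : ℕ) : Code × Code := (Denumerable.ofNat (Code × Code) n)

/-- the `n`-th pair of programs shows that `x` is equivalent to a member of the perfect set -/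
def P (n : ℕ) (x : Re) : Prop :=
  Red (cd n).1 x (G (cd n).1 x) ∧ Red (cd n).2 (G (cd n).1 x) x ∧
    Q (dec (G (cd n).1 x)) = G (cd n).1 x

theorem measurableSet_eq' {α : Type*} [MeasurableSpace α] {f g : α → Re} (hf : Measurable f)
    (hg : Measurable g) : MeasurableSet {x | f x = g x} := by
  have : {x | f x = g x} = ⋂ i, ⋃ m : ℕ, {x | f x i = m} ∩ {x | g x i = m} := by
    ext x
    simp only [mem_ofPred_eq, mem_iInter, mem_iUnion, mem_inter_iff]
    constructor
    · intro h i
      exact ⟨f x i, rfl, by rw [h]⟩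
    · intro h
      funext i
      obtain ⟨m, h1, h2⟩ := h i
      rw [h1, h2]
  rw [this]
  refine MeasurableSet.iInter fun i => MeasurableSet.iUnion fun m => MeasurableSet.inter ?_ ?_
  · exact ((measurable_pi_apply i).comp hf) (measurableSet_singleton m)
  · exact ((measurable_pi_apply i).comp hg) (measurableSet_singleton m)

theorem measurableSet_P (n : ℕ) : MeasurableSet {x | P n x} := by
  have h1 : MeasurableSet {x | Red (cd n).1 x (G (cd n).1 x)} :=
    (measurable_id.prodMk (measurable_G (cd n).1)) (measurableSet_red (cd n).1)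
  have h2 : MeasurableSet {x | Red (cd n).2 (G (cd n).1 x) x} :=
    ((measurable_G (cd n).1).prodMk measurable_id) (measurableSet_red (cd n).2)
  have h3 : MeasurableSet {x | Q (dec (G (cd n).1 x)) = G (cd n).1 x} :=
    measurableSet_eq' (measurable_Q.comp (measurable_dec.comp (measurable_G _))) (measurable_G _)
  exact h1.inter (h2.inter h3)

open Classical in
/-- the Turing invariant function -/
noncomputable def F₀ (x : Re) : Re :=
  if h : ∃ n, P n x then rho (dec (G (cd (Nat.find h)).1 x)) else fun _ => 0

theorem measurable_F₀ : Measurable F₀ := by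
  classical
  refine measurable_pi_iff.2 fun i => measurable_nat fun m => ?_
  have e : {x | F₀ x i = m} =
      (⋃ n, ({x | P n x} ∩ ⋂ k ∈ {k | k < n}, {x | P k x}ᶜ) ∩
        {x | rho (dec (G (cd n).1 x)) i = m}) ∪
      ({x : Re | m = 0} ∩ ⋂ n, {x | P n x}ᶜ) := by
    ext x
    simp only [mem_ofPred_eq, mem_union, mem_inter_iff, mem_iInter, mem_compl_iff, mem_iUnion]
    constructor
    · intro h
      by_cases hx : ∃ n, P n x
      · left
        rw [F₀, dif_pos hx] at h
        exact ⟨Nat.find hx, ⟨Nat.find_spec hx, fun k hk => Nat.find_min hx hk⟩, h⟩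
      · right
        rw [F₀, dif_neg hx] at h
        exact ⟨h.symm, fun n hn => hx ⟨n, hn⟩⟩
    · rintro (⟨n, ⟨h1, h2⟩, h3⟩ | ⟨rfl, h2⟩)
      · have hx : ∃ n, P n x := ⟨n, h1⟩
        have hn : Nat.find hx = n := (Nat.find_eq_iff hx).2 ⟨h1, h2⟩
        rw [F₀, dif_pos hx, hn]
        exact h3
      · have hx : ¬ ∃ n, P n x := fun ⟨n, hn⟩ => h2 n hn
        rw [F₀, dif_neg hx]
  rw [e]
  refine MeasurableSet.union (MeasurableSet.iUnion fun n => MeasurableSet.inter
    (MeasurableSet.inter (measurableSet_P n) ?_) ?_) (MeasurableSet.inter (MeasurableSet.const _) ?_)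
  · exact MeasurableSet.biInter (to_countable _) fun k _ => (measurableSet_P k).compl
  · exact ((measurable_pi_apply i).comp (measurable_rho.comp (measurable_dec.comp
      (measurable_G _)))) (measurableSet_singleton m)
  · exact MeasurableSet.iInter fun k => (measurableSet_P k).compl

theorem exists_P {x : Re} {z : Cz} (h1 : LeT (Q z) x) (h2 : LeT x (Q z)) : ∃ n, P n x := by
  obtain ⟨c, hc⟩ := exists_red h1
  obtain ⟨d, hd⟩ := exists_red h2
  have e : cd (encode (c, d)) = (c, d) := Denumerable.ofNat_encode (c, d)
  refine ⟨encode (c, d), ?_, ?_, ?_⟩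
  · rw [e]; simp only; rw [hc.G_eq]; exact hc
  · rw [e]; simp only; rw [hc.G_eq]; exact hd
  · rw [e]; simp only; rw [hc.G_eq, dec_Q]

theorem P.spec {n : ℕ} {x : Re} (h : P n x) :
    LeT (Q (dec (G (cd n).1 x))) x ∧ LeT x (Q (dec (G (cd n).1 x))) := by
  rw [h.2.2]
  exact ⟨h.1.leT, h.2.1.leT⟩

theorem rho_leT {z z' : Cz} (h : LeT (Q z') (Q z)) : LeT (rho z) (rho z') := by
  obtain ⟨N, hN⟩ := eventually_eq h
  exact leT_of_eq_off (N := N) fun n hn => by simp only [rho]; rw [hN (2 * n) (by omega)]

theorem F₀_spec {x : Re} {z : Cz} (h1 : LeT (Q z) x) (h2 : LeT x (Q z)) :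
    LeT (F₀ x) (rho z) ∧ LeT (rho z) (F₀ x) := by
  classical
  have hx : ∃ n, P n x := exists_P h1 h2
  have h3 := (Nat.find_spec hx).spec
  rw [F₀, dif_pos hx]
  exact ⟨rho_leT (h1.trans h3.2), rho_leT (h3.1.trans h2)⟩

theorem F₀_inv {x y : Re} (h1 : LeT x y) (h2 : LeT y x) : LeT (F₀ x) (F₀ y) := by
  classical
  by_cases hx : ∃ n, P n x
  · obtain ⟨n, hn⟩ := hx
    have h3 := hn.spec
    exact (F₀_spec h3.1 h3.2).1.trans (F₀_spec (h3.1.trans h1) (h2.trans h3.2)).2
  · have hy : ¬ ∃ n, P n y := by
      rintro ⟨n, hn⟩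
      exact hx (exists_P (hn.spec.1.trans h2) (h1.trans hn.spec.2))
    rw [F₀, F₀, dif_neg hx, dif_neg hy]
    exact LeT.refl _

theorem continuous_Q : Continuous Q :=
  continuous_pi fun i => (continuous_of_discreteTopology (f := fun b : Bool => vv b i)).comp
    (continuous_apply (bb i))

theorem countable_le (x : Re) : {y | LeT y x}.Countable := by
  have : {y | LeT y x} = ⋃ c : Code, {y | Red c x y} := by
    ext y
    simp [leT_iff]
  rw [this]
  exact countable_iUnion fun c => Set.Subsingleton.countable fun y hy y' hy' => Red.unique hy hy'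

theorem pre_Q_iff {N : ℕ} {z w : Cz} : pre (Q z) (ll N) = pre (Q w) (ll N) ↔ Agr N z w := by
  constructor
  · intro h j hj
    have h1 : Q z (ll j) = Q w (ll j) := by
      have h2 := congrArg (fun L => L.getD (ll j) 0) h
      rwa [pre_getD _ _ _ _ (ll_mono hj), pre_getD _ _ _ _ (ll_mono hj)] at h2
    rw [Q_ll, Q_ll] at h1
    revert h1
    cases z j <;> cases w j <;> simp
  · intro h
    refine pre_congr fun i hi => ?_
    simp only [Q, q]
    rw [h _ (bb_lt hi)]

theorem Q_swz (N : ℕ) (w a z : Cz) :
    Q (swz N w a z) = sw (pre (Q w) (ll N)) (pre (Q a) (ll N)) (Q z) := by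
  classical
  funext i
  simp only [sw, length_pre]
  by_cases hi : i < ll N
  · have hb : bb i < N := bb_lt hi
    simp only [if_pos hi, pre_Q_iff, pre_getD _ _ _ _ hi]
    simp only [Q, q, swz, if_pos hb]
    split_ifs <;> rfl
  · have hb : N ≤ bb i := le_bb (by omega)
    simp only [if_neg hi]
    simp only [Q, q, swz_ge hb]

/-- The main theorem. -/
theorem main (F : Re → Re)
    (hF : ∀ φ : Cz → Re, Continuous φ → ∀ n m, BaireMeasurableSet {z | F (φ z) n = m})
    (hd : ∀ x, LeT (F x) (F₀ x) ∧ LeT (F₀ x) (F x)) :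
    ∃ (i j : Code) (x y x' y' : Re), Red i x y ∧ Red j y x ∧ Red i x' y' ∧ Red j y' x' ∧
      F x = F x' ∧ F y ≠ F y' := by
  classical
  by_contra hcon
  push Not at hcon
  have hU : ∀ N w a, ∃ g : (ℕ → ℕ) → (ℕ → ℕ), ∀ z, F (Q (swz N w a z)) = g (F (Q z)) := by
    intro N w a
    obtain ⟨c, hc⟩ := exists_sw (pre (Q w) (ll N)) (pre (Q a) (ll N))
    have h1 : ∀ z, Red c (Q z) (Q (swz N w a z)) := by
      intro z
      rw [Q_swz]
      exact hc _
    have h2 : ∀ z, Red c (Q (swz N w a z)) (Q z) := by
      intro z
      have := h1 (swz N w a z)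
      rwa [swz_swz] at this
    refine ⟨fun h => if hz : ∃ z, F (Q z) = h then F (Q (swz N w a hz.choose)) else h,
      fun z => ?_⟩
    have hz : ∃ z', F (Q z') = F (Q z) := ⟨z, rfl⟩
    simp only [dif_pos hz]
    exact (hcon c c _ _ _ _ (h1 hz.choose) (h2 hz.choose) (h1 z) (h2 z) hz.choose_spec).symm
  have hdeg : ∀ z, LeT (F (Q z)) (rho z) ∧ LeT (rho z) (F (Q z)) := by
    intro z
    have h1 := F₀_spec (LeT.refl (Q z)) (LeT.refl (Q z))
    exact ⟨(hd _).1.trans h1.1, h1.2.trans (hd _).2⟩
  rcases const_or_inj (H := fun z => F (Q z)) (hF Q continuous_Q) hU with ⟨C, hC⟩ | ⟨G, hG, hi⟩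
  · have h1 : (⋂ y ∈ {y | LeT y C}, {z | rho z ≠ y}) ∈ residual Cz := by
      refine (countable_bInter_mem (countable_le C)).2 fun y _ => mem_residual_of ?_ ?_
      · have hcont : Continuous rho := continuous_pi fun i =>
          (continuous_of_discreteTopology (f := Bool.toNat)).comp (continuous_apply (2 * i))
        exact isOpen_compl_singleton.preimage hcont
      · refine dense_iff_agr.2 fun N w => ⟨fun i => if i = 2 * N then decide (y N = 0) else w i,
          fun h => ?_, fun j hj => by simp [show j ≠ 2 * N by omega]⟩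
        have := congrFun h N
        simp only [rho, if_true] at this
        by_cases h0 : y N = 0
        · simp [h0] at this
        · simp only [h0, decide_false, Bool.toNat_false] at this
          exact h0 this.symm
    obtain ⟨z, hz1, hz2⟩ := (dense_of_mem_residual (Filter.inter_mem hC h1)).nonempty
    have h2 : LeT (rho z) C := by
      have := (hdeg z).2
      rwa [show F (Q z) = C from hz1] at this
    exact (mem_iInter₂.1 hz2 (rho z) h2) rfl
  · obtain ⟨a, ha⟩ := exists_section hG
    refine not_countable ha ?_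
    refine Set.MapsTo.countable_of_injOn (f := fun b => F (Q (jn a b)))
      (t := {y | LeT y (fun n => (a n).toNat)}) ?_ ?_ (countable_le _)
    · intro b _
      have h1 : rho (jn a b) = fun n => (a n).toNat := by
        funext n
        simp only [rho, jn_even]
      have h2 := (hdeg (jn a b)).1
      rwa [h1] at h2
    · intro b hb b' hb' h
      have h1 := hi hb hb' h
      funext n
      have h2 := congrFun h1 (2 * n + 1)
      rwa [jn_odd, jn_odd] at h2

end Pool.Agent.V11258.UR
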