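import Pool.Agent.V11258.UR.Use

set_option autoImplicit false

/-!
Programs for Turing reductions between reals `x : ℕ → ℕ`.
-/

namespace Pool.Agent.V11258.UR

open Encodable Nat.Partrec
open Pool.Agent.Helper227

/-- The program `c` reduces the real `y` to the real `x`: run on the inputs `(n, σ)`, `σ` a finite
initial segment of `x`, it outputs `y n` for at least one `σ` and never outputs another value. -/
def Red (c : Code) (x y : ℕ → ℕ) : Prop :=
  (∀ n, ∃ k, y n ∈ c.eval (encode (n, pre x k))) ∧
    ∀ n k v, v ∈ c.eval (encode (n, pre x k)) → v = y n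

/-- Turing reducibility `y ≤_T x` of reals. -/
def LeT (y x : ℕ → ℕ) : Prop := TuringReducible (fn y) (fn x)

theorem LeT.refl (x : ℕ → ℕ) : LeT x x := TuringReducible.refl _

theorem LeT.trans {x y z : ℕ → ℕ} (h : LeT x y) (h' : LeT y z) : LeT x z :=
  TuringReducible.trans h h'

/-- every partial recursive function on a coded type is given by a program -/
theorem exists_code_of {α : Type*} [Primcodable α] {f : α →. ℕ} (hf : Partrec f) :
    ∃ c : Code, ∀ a, c.eval (encode a) = f a := by
  obtain ⟨c, hc⟩ := Code.exists_code.1 hf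
  refine ⟨c, fun a => ?_⟩
  rw [hc]
  simp only [encodek, Part.coe_some, Part.bind_some]
  refine (congrArg (fun g : ℕ → ℕ => Part.map g (f a)) (?_ : encode = id)).trans (Part.map_id' (fun _ => rfl) _)
  rfl

theorem Red.leT {c : Code} {x y : ℕ → ℕ} (h : Red c x y) : LeT y x := by
  refine RecursiveIn.iff_nat.2 (recIn_of_graph (A := x) (f := fn y)
    (G := fun a => a.2.2 ∈ c.eval (encode (a.2.1, a.1))) ?_ ?_)
  · refine ⟨fun a n => a.2.2 ∈ c.evaln n (encode (a.2.1, a.1)), ?_, ?_, ?_⟩
    · have : Primrec fun x : (List ℕ × ℕ × ℕ) × ℕ => c.evaln x.2 (encode (x.1.2.1, x.1.1)) :=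
        Nat.Partrec.Code.primrec_evaln.comp
          ((Primrec.snd.pair (Primrec.const c)).pair (Primrec.encode.comp
            ((Primrec.fst.comp (Primrec.snd.comp Primrec.fst)).pair (Primrec.fst.comp Primrec.fst))))
      exact Primrec.eq.comp this (Primrec.option_some.comp
        (Primrec.snd.comp (Primrec.snd.comp Primrec.fst)))
    · intro a m n hmn h
      exact Code.evaln_mono hmn h
    · intro a
      exact Code.evaln_complete
  · intro n m
    simp only [fn, Part.mem_some_iff]
    constructor
    · rintro rfl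
      exact h.1 n
    · rintro ⟨s, hs⟩
      exact h.2 n s m hs

theorem exists_red {x y : ℕ → ℕ} (h : LeT y x) : ∃ c : Code, Red c x y := by
  classical
  obtain ⟨G, ⟨q, hq, hm, he⟩, mG, eG⟩ := recIn_graph (A := x) (f := fn y) (RecursiveIn.iff_nat.1 h)
  have h1 : Partrec fun a : ℕ × List ℕ =>
      (Nat.rfind fun n => Part.some (decide (q (a.2, a.1, n.unpair.1) n.unpair.2))).map
        (fun n => n.unpair.1) := by
    refine Partrec.map (Partrec.rfind ?_) ?_
    · have hp : PrimrecPred fun x : (ℕ × List ℕ) × ℕ =>
          q (x.1.2, x.1.1, x.2.unpair.1) x.2.unpair.2 := by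
        refine hq.comp (f := fun x : (ℕ × List ℕ) × ℕ =>
          ((x.1.2, x.1.1, x.2.unpair.1) : (List ℕ × ℕ × ℕ)))
          (g := fun x : (ℕ × List ℕ) × ℕ => x.2.unpair.2) ?_ ?_
        · exact ((Primrec.snd.comp Primrec.fst).pair ((Primrec.fst.comp Primrec.fst).pair
            (Primrec.fst.comp (Primrec.unpair.comp Primrec.snd))))
        · exact (Primrec.snd.comp (Primrec.unpair.comp Primrec.snd))
      exact (Primrec.to_comp hp.decide).partrec
    · exact (Primrec.fst.comp (Primrec.unpair.comp Primrec.snd)).to_comp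
  obtain ⟨c, hc⟩ := exists_code_of h1
  have key : ∀ n k v, v ∈ c.eval (encode (n, pre x k)) → v = y n := by
    intro n k v hv
    rw [hc] at hv
    obtain ⟨a, ha, rfl⟩ := (Part.mem_map_iff _).1 hv
    have hq' := (Nat.mem_rfind.1 ha).1
    simp only [Part.mem_some_iff] at hq'
    have h3 : q (pre x k, n, a.unpair.1) a.unpair.2 := by
      have := hq'.symm
      simpa using this
    have := (eG n a.unpair.1).2 ⟨k, (he _).2 ⟨_, h3⟩⟩
    simpa [fn] using this
  refine ⟨c, fun n => ?_, key⟩
  have h2 : y n ∈ fn y n := by simp [fn]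
  obtain ⟨s, hs⟩ := (eG n (y n)).1 h2
  obtain ⟨t, ht⟩ := (he _).1 hs
  refine ⟨s, ?_⟩
  have hdom : (c.eval (encode (n, pre x s))).Dom := by
    rw [hc]
    refine Nat.rfind_dom.2 ⟨Nat.pair (y n) t, ?_, fun _ => trivial⟩
    simp only [Nat.unpair_pair, Part.mem_some_iff]
    simpa using ht
  obtain ⟨v, hv⟩ := Part.dom_iff_mem.1 hdom
  rwa [← key n s v hv]

theorem leT_iff {x y : ℕ → ℕ} : LeT y x ↔ ∃ c : Code, Red c x y :=
  ⟨exists_red, fun ⟨_, h⟩ => h.leT⟩

theorem Red.unique {c : Code} {x y y' : ℕ → ℕ} (h : Red c x y) (h' : Red c x y') : y = y' := by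
  funext n
  obtain ⟨k, hk⟩ := h.1 n
  exact h'.2 n k _ hk

/-- a partial recursive operator, in the form of a program -/
theorem red_of_partrec {f : ℕ × List ℕ →. ℕ} (hf : Partrec f) :
    ∃ c : Code, ∀ x y : ℕ → ℕ, (∀ n, ∃ k, y n ∈ f (n, pre x k)) →
      (∀ n k v, v ∈ f (n, pre x k) → v = y n) → Red c x y := by
  obtain ⟨c, hc⟩ := exists_code_of hf
  refine ⟨c, fun x y h1 h2 => ⟨fun n => ?_, fun n k v hv => ?_⟩⟩
  · obtain ⟨k, hk⟩ := h1 n
    exact ⟨k, by rwa [hc]⟩
  · rw [hc] at hv
    exact h2 n k v hv

/-- exchange the initial segments `A` and `B` (of the same length) -/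
def sw (A B : List ℕ) (x : ℕ → ℕ) : ℕ → ℕ := fun n =>
  if n < A.length then
    if pre x A.length = A then B.getD n 0 else if pre x A.length = B then A.getD n 0 else x n
  else x n

theorem exists_sw (A B : List ℕ) : ∃ c : Code, ∀ x, Red c x (sw A B x) := by
  have hp : Primrec fun a : ℕ × List ℕ => (if a.1 < A.length then
      (if a.2.take A.length = A then some (B.getD a.1 0) else
        if a.2.take A.length = B then some (A.getD a.1 0) else a.2[a.1]?)
      else a.2[a.1]? : Option ℕ) := by
    have ht : Primrec fun a : ℕ × List ℕ => a.2.take A.length := by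
      exact Primrec.list_take.comp (Primrec.const _) Primrec.snd
    have hg : Primrec fun a : ℕ × List ℕ => a.2[a.1]? :=
      Primrec.list_getElem?.comp Primrec.snd Primrec.fst
    refine Primrec.ite (Primrec.nat_lt.comp Primrec.fst (Primrec.const _)) ?_ hg
    refine Primrec.ite (Primrec.eq.comp ht (Primrec.const _)) ?_ ?_
    · exact Primrec.option_some.comp ((Primrec.list_getD 0).comp (Primrec.const _) Primrec.fst)
    refine Primrec.ite (Primrec.eq.comp ht (Primrec.const _)) ?_ hg
    exact Primrec.option_some.comp ((Primrec.list_getD 0).comp (Primrec.const _) Primrec.fst)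
  have hp' : Primrec fun a : ℕ × List ℕ => (if A.length ≤ a.2.length then
      (if a.1 < A.length then
      (if a.2.take A.length = A then some (B.getD a.1 0) else
        if a.2.take A.length = B then some (A.getD a.1 0) else a.2[a.1]?)
      else a.2[a.1]?) else none : Option ℕ) :=
    Primrec.ite (Primrec.nat_le.comp (Primrec.const _) (Primrec.list_length.comp Primrec.snd)) hp
      (Primrec.const _)
  obtain ⟨c, hc⟩ := red_of_partrec (hp'.to_comp.ofOption)
  refine ⟨c, fun x => hc x _ (fun n => ?_) (fun n k v hv => ?_)⟩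
  · refine ⟨max (n + 1) A.length, ?_⟩
    have h1 : n < max (n + 1) A.length := by omega
    have h2 : A.length ≤ (pre x (max (n + 1) A.length)).length := by simp
    simp only [h2, if_true, take_pre x _ _ (le_max_right _ _), pre_getElem? x _ _ h1, sw]
    split_ifs <;> simp
  · by_cases h2 : A.length ≤ k
    · have h2' : A.length ≤ (pre x k).length := by simpa using h2
      simp only [h2', if_true, take_pre x _ _ h2] at hv
      simp only [sw]
      split_ifs at hv ⊢ with h3 h4 h5
      · simpa using hv
      · simpa using hv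
      all_goals
        by_cases h6 : n < k
        · rw [pre_getElem? x _ _ h6] at hv
          simpa using hv
        · rw [pre_getElem?_none x _ _ (by omega)] at hv
          simp at hv
    · exfalso
      simp only [length_pre, if_neg h2] at hv
      simp at hv

/-- finite modifications do not change the degree -/
theorem leT_of_eq_off {x y : ℕ → ℕ} {N : ℕ} (h : ∀ n, N ≤ n → x n = y n) : LeT x y := by
  obtain ⟨c, hc⟩ := exists_sw (pre y N) (pre x N)
  have h1 : sw (pre y N) (pre x N) y = x := by
    funext n
    simp only [sw, length_pre, if_true]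
    split_ifs with h2
    · rw [pre_getD _ _ _ _ h2]
    · exact (h n (by omega)).symm
  have := (hc y).leT
  rwa [h1] at this

end Pool.Agent.V11258.UR
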