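import Pool.Agent.V11258.UR.Red

set_option autoImplicit false

/-!
A perfect set of reals, parametrised by `2^ω`, whose members are Turing equivalent only if their
parameters are equal up to finitely many bits.
-/

namespace Pool.Agent.V11258.UR

open Encodable Nat.Partrec

/-- `x` is `h` below `ℓ` and `v` between `ℓ` and `L` -/
def Ext (ℓ L : ℕ) (h v x : ℕ → ℕ) : Prop :=
  (∀ i < ℓ, x i = h i) ∧ ∀ i, ℓ ≤ i → i < L → x i = v i

theorem Ext.mono {ℓ L L' : ℕ} {h v v' x : ℕ → ℕ} (H : Ext ℓ L' h v' x) (hL : L ≤ L')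
    (hv : ∀ i < L, v' i = v i) : Ext ℓ L h v x :=
  ⟨H.1, fun i h1 h2 => (H.2 i h1 (by omega)).trans (hv i h2)⟩

theorem pre_congr {x y : ℕ → ℕ} {k : ℕ} (h : ∀ i < k, x i = y i) : pre x k = pre y k := by
  simp only [pre]
  exact List.map_congr_left fun i hi => h i (List.mem_range.1 hi)

theorem ext_one (c : Code) (ℓ L : ℕ) (hL : ℓ ≤ L) (h h' : ℕ → ℕ) (b : Bool)
    (v : Bool → ℕ → ℕ) :
    ∃ v' : Bool → ℕ → ℕ, ∃ L', L ≤ L' ∧ (∀ b i, i < L → v' b i = v b i) ∧
      ∀ x x', Ext ℓ L' h (v' b) x → Ext ℓ L' h' (v' (!b)) x' → ¬ Red c x x' := by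
  by_cases H : ∃ x, Ext ℓ L h (v b) x ∧ ∃ k w, w ∈ c.eval (encode (L, pre x k))
  · obtain ⟨x₀, hx₀, k, w, hw⟩ := H
    refine ⟨fun d i => if i < L then v d i else if d = b then x₀ i else w + 1, max (L + 1) k,
      by omega, fun d i hi => by simp [hi], fun x x' hx hx' hr => ?_⟩
    have h1 : ∀ i < max (L + 1) k, x i = x₀ i := by
      intro i hi
      by_cases hi1 : i < ℓ
      · rw [hx.1 i hi1, hx₀.1 i hi1]
      · rw [hx.2 i (by omega) hi]
        by_cases hi2 : i < L
        · simp only [if_pos hi2, hx₀.2 i (by omega) hi2]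
        · simp only [if_neg hi2, if_true]
    have h2 : pre x k = pre x₀ k := pre_congr fun i hi => h1 i (by omega)
    rw [← h2] at hw
    have h3 := hr.2 L k w hw
    have h4 := hx'.2 L hL (by omega)
    have h5 : (!b) ≠ b := by cases b <;> simp
    simp only [if_neg (lt_irrefl L), if_neg h5] at h4
    omega
  · push Not at H
    refine ⟨v, L, le_rfl, fun _ _ _ => rfl, fun x x' hx hx' hr => ?_⟩
    obtain ⟨k, hk⟩ := hr.1 L
    exact H x hx k _ hk

theorem ext_finset {ι : Type*} (c : ι → Code) (ℓ : ℕ) (h h' : ι → ℕ → ℕ) (b : ι → Bool)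
    (S : Finset ι) : ∀ (L : ℕ), ℓ ≤ L → ∀ v : Bool → ℕ → ℕ,
    ∃ v' : Bool → ℕ → ℕ, ∃ L', L ≤ L' ∧ (∀ b i, i < L → v' b i = v b i) ∧
      ∀ t ∈ S, ∀ x x', Ext ℓ L' (h t) (v' (b t)) x → Ext ℓ L' (h' t) (v' (!(b t))) x' →
        ¬ Red (c t) x x' := by
  classical
  induction S using Finset.induction_on with
  | empty =>
    intro L _ v
    exact ⟨v, L, le_rfl, fun _ _ _ => rfl, by simp⟩
  | insert t S _ ih =>
    intro L hL v
    obtain ⟨v₁, L₁, h1, h2, h3⟩ := ih L hL v
    obtain ⟨v₂, L₂, g1, g2, g3⟩ := ext_one (c t) ℓ L₁ (by omega) (h t) (h' t) (b t) v₁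
    refine ⟨v₂, L₂, by omega, fun d i hi => (g2 d i (by omega)).trans (h2 d i hi), ?_⟩
    intro s hs x x' hx hx'
    rcases Finset.mem_insert.1 hs with rfl | hs
    · exact g3 x x' hx hx'
    · exact h3 s hs x x' (hx.mono g1 fun i hi => g2 _ i hi) (hx'.mono g1 fun i hi => g2 _ i hi)

/-- the real with parameter `z` -/
def q (v : Bool → ℕ → ℕ) (blk : ℕ → ℕ) (z : ℕ → Bool) : ℕ → ℕ := fun i => v (z (blk i)) i

/-- a stage of the construction -/
structure St where
  v : Bool → ℕ → ℕ
  blk : ℕ → ℕ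
  L : ℕ

/-- what a step achieves -/
def Step (n : ℕ) (s s' : St) : Prop :=
  s.L < s'.L ∧ (∀ b i, i < s.L → s'.v b i = s.v b i) ∧ (∀ i < s.L, s'.blk i = s.blk i) ∧
    (∀ i, s.L ≤ i → s'.blk i = n) ∧ (∀ b, s'.v b s.L = b.toNat) ∧
    ((∀ i < s.L, s.blk i < n) → ∀ c : Code, encode c < n → ∀ z z' : ℕ → Bool, z n ≠ z' n →
      ∀ x x', (∀ i < s'.L, x i = q s'.v s'.blk z i) → (∀ i < s'.L, x' i = q s'.v s'.blk z' i) →
        ¬ Red c x x')

theorem exists_step (n : ℕ) (s : St) : ∃ s', Step n s s' := by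
  classical
  obtain ⟨v', L', h1, h2, h3⟩ := ext_finset (ι := Fin n × (Fin n → Bool) × (Fin n → Bool) × Bool)
    (fun t => Denumerable.ofNat Code t.1) s.L
    (fun t i => s.v (if h : s.blk i < n then t.2.1 ⟨s.blk i, h⟩ else false) i)
    (fun t i => s.v (if h : s.blk i < n then t.2.2.1 ⟨s.blk i, h⟩ else false) i)
    (fun t => t.2.2.2) Finset.univ (s.L + 1) (by omega)
    (fun b i => if i = s.L then b.toNat else s.v b i)
  refine ⟨⟨v', fun i => if i < s.L then s.blk i else n, L'⟩, by simp only; omega, ?_, ?_, ?_, ?_, ?_⟩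
  · intro b i hi
    simp only
    rw [h2 b i (by omega), if_neg (by omega)]
  · intro i hi
    simp [hi]
  · intro i hi
    simp only
    rw [if_neg (by omega)]
  · intro b
    simp only
    rw [h2 b _ (by omega), if_pos rfl]
  · intro hb c hc z z' hz x x' hx hx'
    have hc' : c = Denumerable.ofNat Code (encode c) := (Denumerable.ofNat_encode c).symm
    rw [hc']
    have hzn : z' n = !(z n) := by
      revert hz
      cases z n <;> cases z' n <;> simp
    have e : ∀ y : ℕ → Bool, ∀ w : ℕ → ℕ,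
        (∀ i < L', w i = q v' (fun i => if i < s.L then s.blk i else n) y i) →
        Ext s.L L' (fun i => s.v (if h : s.blk i < n then (fun j : Fin n => y j) ⟨s.blk i, h⟩ else false) i)
          (v' (y n)) w := by
      intro y w hw
      refine ⟨fun i hi => ?_, fun i hi1 hi2 => ?_⟩
      · rw [hw i (by omega)]
        simp only [q, if_pos hi]
        rw [h2 _ i (by omega), if_neg (by omega), dif_pos (hb i hi)]
      · rw [hw i hi2]
        simp only [q, if_neg (show ¬ i < s.L by omega)]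
    refine h3 (⟨encode c, hc⟩, fun j => z j, fun j => z' j, z n) (Finset.mem_univ _) x x' ?_ ?_
    · exact e z x hx
    · have := e z' x' hx'
      rw [hzn] at this
      exact this

/-- the construction -/
noncomputable def st : ℕ → St
  | 0 => ⟨fun _ _ => 0, fun _ => 0, 0⟩
  | n + 1 => (exists_step n (st n)).choose

theorem st_step (n : ℕ) : Step n (st n) (st (n + 1)) := (exists_step n (st n)).choose_spec

theorem st_L (n : ℕ) : (st n).L < (st (n + 1)).L := (st_step n).1

theorem st_L_mono : StrictMono fun n => (st n).L := strictMono_nat_of_lt_succ st_L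

theorem st_agree {m n : ℕ} (h : m ≤ n) : (∀ b i, i < (st m).L → (st n).v b i = (st m).v b i) ∧
    ∀ i < (st m).L, (st n).blk i = (st m).blk i := by
  induction n, h using Nat.le_induction with
  | base => exact ⟨fun _ _ _ => rfl, fun _ _ => rfl⟩
  | succ n hmn ih =>
    have hL : (st m).L ≤ (st n).L := st_L_mono.monotone hmn
    exact ⟨fun b i hi => ((st_step n).2.1 b i (by omega)).trans (ih.1 b i hi),
      fun i hi => ((st_step n).2.2.1 i (by omega)).trans (ih.2 i hi)⟩

theorem st_blk (n : ℕ) : ∀ i < (st n).L, (st n).blk i < n := by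
  induction n with
  | zero => intro i hi; simp [st] at hi
  | succ n ih =>
    intro i _
    by_cases h : i < (st n).L
    · rw [(st_step n).2.2.1 i h]
      exact (ih i h).trans (Nat.lt_succ_self n)
    · rw [(st_step n).2.2.2.1 i (by omega)]
      exact Nat.lt_succ_self n

/-- the two branches -/
noncomputable def vv : Bool → ℕ → ℕ := fun b i => (st (i + 1)).v b i

/-- the block of a position -/
noncomputable def bb : ℕ → ℕ := fun i => (st (i + 1)).blk i

/-- the start of a block -/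
noncomputable def ll : ℕ → ℕ := fun n => (st n).L

theorem ll_mono : StrictMono ll := st_L_mono

theorem ll_zero : ll 0 = 0 := rfl

theorem vv_eq {n i : ℕ} (h : i < ll n) (b : Bool) : vv b i = (st n).v b i := by
  have h1 : i < (st (i + 1)).L := by
    have := st_L_mono.id_le (i + 1)
    simp only [id] at this
    omega
  rcases le_total n (i + 1) with h2 | h2
  · exact (st_agree h2).1 b i h
  · exact ((st_agree h2).1 b i h1).symm

theorem bb_eq {n i : ℕ} (h : i < ll n) : bb i = (st n).blk i := by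
  have h1 : i < (st (i + 1)).L := by
    have := st_L_mono.id_le (i + 1)
    simp only [id] at this
    omega
  rcases le_total n (i + 1) with h2 | h2
  · exact (st_agree h2).2 i h
  · exact ((st_agree h2).2 i h1).symm

theorem bb_lt {n i : ℕ} (h : i < ll n) : bb i < n := by
  rw [bb_eq h]
  exact st_blk n i h

theorem le_bb {n i : ℕ} (h : ll n ≤ i) : n ≤ bb i := by
  by_contra hc
  have h1 : i < ll (i + 1) := by
    have := ll_mono.id_le (i + 1)
    simp only [id] at this
    omega
  -- the least `m` with `i < ll m`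
  classical
  have hex : ∃ m, i < ll m := ⟨_, h1⟩
  obtain ⟨m, hm⟩ : ∃ m, Nat.find hex = m := ⟨_, rfl⟩
  have hm1 : i < ll m := hm ▸ Nat.find_spec hex
  have hm2 : n < m := by
    by_contra hc2
    have := ll_mono.monotone (show m ≤ n by omega)
    omega
  obtain ⟨m', rfl⟩ : ∃ m', m = m' + 1 := ⟨m - 1, by omega⟩
  have hm3 : ¬ i < ll m' := Nat.find_min hex (by omega)
  rw [bb_eq hm1, (st_step m').2.2.2.1 i (by simpa [ll] using hm3)] at hc
  omega

theorem bb_ll (n : ℕ) : bb (ll n) = n :=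
  le_antisymm (Nat.lt_succ_iff.1 (bb_lt (ll_mono (Nat.lt_succ_self n)))) (le_bb le_rfl)

theorem vv_ll (b : Bool) (n : ℕ) : vv b (ll n) = b.toNat := by
  rw [vv_eq (ll_mono (Nat.lt_succ_self n))]
  exact (st_step n).2.2.2.2.1 b

/-- the real with parameter `z` -/
noncomputable def Q (z : ℕ → Bool) : ℕ → ℕ := q vv bb z

theorem Q_ll (z : ℕ → Bool) (n : ℕ) : Q z (ll n) = (z n).toNat := by
  simp only [Q, q, bb_ll, vv_ll]

theorem not_red {z z' : ℕ → Bool} (h : ∀ N, ∃ n, N ≤ n ∧ z n ≠ z' n) (c : Code) :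
    ¬ Red c (Q z) (Q z') := by
  obtain ⟨n, hn, hz⟩ := h (encode c + 1)
  have e : ∀ y : ℕ → Bool, ∀ i < (st (n + 1)).L, Q y i = q (st (n + 1)).v (st (n + 1)).blk y i := by
    intro y i hi
    simp only [Q, q, vv_eq hi, bb_eq hi]
  exact (st_step n).2.2.2.2.2 (st_blk n) c (by omega) z z' hz _ _ (e z) (e z')

theorem eventually_eq {z z' : ℕ → Bool} (h : LeT (Q z') (Q z)) : ∃ N, ∀ n, N ≤ n → z n = z' n := by
  by_contra hc
  push Not at hc
  obtain ⟨c, hc'⟩ := exists_red h
  exact not_red (fun N => by obtain ⟨n, h1, h2⟩ := hc N; exact ⟨n, h1, h2⟩) c hc'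

end Pool.Agent.V11258.UR
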